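import Mathlib

/-!
# Two doubly transitive actions, one of degree `6`

A finite group with faithful doubly transitive actions on a set of `6` points and on a set `Y` cannot
have, for a point `y` of `Y`, a nontrivial permutation of `Y` that fixes `y` and commutes with the
stabilizer of `y`.
-/

set_option autoImplicit false

namespace Pool.Agent.H101R.Qd

open Equiv MulAction
open scoped Nat

/-- the centralizer of a permutation of prime order -/
lemma centCard {Y : Type*} [Fintype Y] [DecidableEq Y] (z : Perm Y) (hp : (orderOf z).Prime) :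
    ∃ n, (n + 1) * orderOf z = z.support.card ∧
      Nat.card (Subgroup.centralizer {z}) =
        (Fintype.card Y - z.support.card)! * (orderOf z) ^ (n + 1) * (n + 1)! := by
  obtain ⟨n, hn⟩ := Perm.cycleType_prime_order hp
  have hsum : z.support.card = (n + 1) * orderOf z := by
    rw [← Perm.sum_cycleType, hn, Multiset.sum_replicate, smul_eq_mul]
  refine ⟨n, hsum.symm, ?_⟩
  rw [Perm.nat_card_centralizer, Perm.sum_cycleType, hn]
  rw [Multiset.prod_replicate, Multiset.toFinset_replicate, if_neg (Nat.succ_ne_zero n),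
    Finset.prod_singleton, Multiset.count_replicate_self]

lemma cent5 {X : Type*} [Finite X] (hX : Nat.card X = 6) (u : Perm X) (hu : orderOf u = 5) :
    Nat.card (Subgroup.centralizer {u}) = 5 := by
  classical
  have := Fintype.ofFinite X
  obtain ⟨n, hn, hc⟩ := centCard u (by rw [hu]; norm_num)
  rw [hu] at hn hc
  have hle : u.support.card ≤ 6 := by
    have := Finset.card_le_univ u.support
    rw [← Nat.card_eq_fintype_card, hX] at this
    exact this
  have hn0 : n = 0 := by omega
  subst hn0
  rw [← hn, ← Nat.card_eq_fintype_card, hX] at hc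
  rw [hc]
  rfl

lemma no_commute {X : Type*} [Finite X] (hX : Nat.card X = 6) (u w : Perm X) (hu : orderOf u = 5)
    (hw : orderOf w = 3) (h : u * w = w * u) : False := by
  have h1 : w ∈ Subgroup.centralizer {u} := by
    rw [Subgroup.mem_centralizer_iff]
    intro v hv
    rw [Set.mem_singleton_iff] at hv
    rw [hv, h]
  have h2 := Subgroup.orderOf_dvd_natCard _ h1
  rw [cent5 hX u hu, hw] at h2
  revert h2
  decide

lemma no_normal5 {X H : Type*} [Finite X] (hX : Nat.card X = 6) [Group H] [Finite H]
    (i : H →* Perm X) (hi : Function.Injective i) (P : Subgroup H) (hP : P.Normal)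
    (hc : Nat.card P = 5) (w : H) (hw : orderOf w = 3) : False := by
  classical
  have := Fintype.ofFinite P
  let f : Function.End P := fun x => MulAut.conjNormal w x
  have hf : f ^ 3 ^ 1 = 1 := by
    have h1 : ∀ (n : ℕ) (x : P), (f ^ n) x = MulAut.conjNormal (w ^ n) x := by
      intro n
      induction n with
      | zero => intro x; simp; rfl
      | succ n ih =>
        intro x
        rw [pow_succ', pow_succ', map_mul, MulAut.mul_apply, ← ih]
        rfl
    funext x
    rw [h1, pow_one, ← hw, pow_orderOf_eq_one, map_one]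
    rfl
  have : Fact (Nat.Prime 3) := ⟨by norm_num⟩
  have h2 := Perm.card_fixedPoints_modEq hf
  rw [← Nat.card_eq_fintype_card, hc] at h2
  -- a nontrivial fixed point
  have h3 : ∃ x : P, f x = x ∧ x ≠ 1 := by
    by_contra hcon
    push Not at hcon
    have h4 : Fintype.card (Function.fixedPoints f) ≤ 1 := by
      rw [Fintype.card_le_one_iff]
      intro a b
      have ha : a.1 = 1 := hcon a.1 a.2
      have hb : b.1 = 1 := hcon b.1 b.2
      exact Subtype.ext (ha.trans hb.symm)
    unfold Nat.ModEq at h2
    omega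
  obtain ⟨x, hx, hx1⟩ := h3
  have h5 : orderOf x = 5 := by
    have h6 : orderOf x ∣ 5 := by rw [← hc]; exact orderOf_dvd_natCard x
    rcases (Nat.dvd_prime (by norm_num : Nat.Prime 5)).mp h6 with h7 | h7
    · exact absurd (orderOf_eq_one_iff.mp h7) hx1
    · exact h7
  have h8 : w * (x : H) * w⁻¹ = x := by
    have := congrArg Subtype.val hx
    simpa [f] using this
  have h9 : (x : H) * w = w * x := by
    calc (x : H) * w = (w * (x : H) * w⁻¹) * w := by rw [h8]
      _ = w * x := by group
  refine no_commute hX (i x) (i w) ?_ ?_ ?_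
  · rw [orderOf_injective i hi, Subgroup.orderOf_coe, h5]
  · rw [orderOf_injective i hi, hw]
  · rw [← map_mul, ← map_mul, h9]

lemma no15 {X H : Type*} [Finite X] (hX : Nat.card X = 6) [Group H] [Finite H]
    (i : H →* Perm X) (hi : Function.Injective i) (hc : Nat.card H = 15 ∨ Nat.card H = 45) :
    False := by
  have : Fact (Nat.Prime 5) := ⟨by norm_num⟩
  have : Fact (Nat.Prime 3) := ⟨by norm_num⟩
  obtain ⟨P⟩ : Nonempty (Sylow 5 H) := inferInstance
  have h1 := Sylow.card_eq_multiplicity P
  have hf : (Nat.card H).factorization 5 = 1 := by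
    rcases hc with hc | hc
    · rw [hc, show (15 : ℕ) = 3 * 5 by norm_num, Nat.factorization_mul (by norm_num) (by norm_num)]
      simp [Nat.Prime.factorization (by norm_num : Nat.Prime 3),
        Nat.Prime.factorization (by norm_num : Nat.Prime 5)]
    · rw [hc, show (45 : ℕ) = 9 * 5 by norm_num,
        Nat.factorization_mul (by norm_num) (by norm_num)]
      have h9 : (9 : ℕ).factorization 5 = 0 :=
        Nat.factorization_eq_zero_of_not_dvd (by norm_num)
      simp [h9, Nat.Prime.factorization (by norm_num : Nat.Prime 5)]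
  rw [hf, pow_one] at h1
  have h2 := (P : Subgroup H).card_mul_index
  have h3 := Sylow.card_dvd_index P
  have h4 := card_sylow_modEq_one 5 H
  have h5 : Nat.card (Sylow 5 H) = 1 := by
    have h1' : Nat.card (P : Subgroup H) = 5 := h1
    rw [h1'] at h2
    have h6 : (P : Subgroup H).index = 3 ∨ (P : Subgroup H).index = 9 := by omega
    have h7 : Nat.card (Sylow 5 H) ∣ 9 := by
      rcases h6 with h6 | h6
      · rw [h6] at h3; exact h3.trans (by norm_num)
      · rwa [h6] at h3
    have h8 : Nat.card (Sylow 5 H) ≤ 9 := Nat.le_of_dvd (by norm_num) h7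
    unfold Nat.ModEq at h4
    interval_cases Nat.card (Sylow 5 H) <;> omega
  have : Subsingleton (Sylow 5 H) := (Nat.card_eq_one_iff_unique.mp h5).1
  have hN : (P : Subgroup H).Normal := Sylow.normal_of_subsingleton P
  obtain ⟨w, hw⟩ := exists_prime_orderOf_dvd_card' (G := H) 3 (by
    rcases hc with hc | hc <;> rw [hc] <;> norm_num)
  exact no_normal5 hX i hi P hN h1 w hw

lemma no30 {X H : Type*} [Finite X] (hX : Nat.card X = 6) [Group H] [Finite H]
    (i : H →* Perm X) (hi : Function.Injective i) (hc : Nat.card H = 30) : False := by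
  have : Fact (Nat.Prime 2) := ⟨by norm_num⟩
  obtain ⟨P⟩ : Nonempty (Sylow 2 H) := inferInstance
  have h1 := Sylow.card_eq_multiplicity P
  have hf : (Nat.card H).factorization 2 = 1 := by
    rw [hc, show (30 : ℕ) = 2 * (3 * 5) by norm_num,
      Nat.factorization_mul (by norm_num) (by norm_num),
      Nat.factorization_mul (by norm_num) (by norm_num)]
    simp [Nat.Prime.factorization (by norm_num : Nat.Prime 3),
      Nat.Prime.factorization (by norm_num : Nat.Prime 5),
      Nat.Prime.factorization (by norm_num : Nat.Prime 2)]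
  rw [hf, pow_one] at h1
  have h1' : Nat.card (P : Subgroup H) = 2 := h1
  have hP : Subgroup.normalizer (P : Set H) ≤ Subgroup.centralizer (P : Set H) := by
    intro g hg
    rw [Subgroup.mem_centralizer_iff]
    intro a ha
    have ha' : a ∈ (P : Subgroup H) := ha
    obtain ⟨x, y, hxy, huniv⟩ := Nat.card_eq_two_iff.mp h1'
    have hmem : ∀ b ∈ (P : Subgroup H), b ≠ 1 → ∀ c ∈ (P : Subgroup H), c ≠ 1 → b = c := by
      intro b hb hb1 c hc' hc1
      have e1 : (⟨b, hb⟩ : (P : Subgroup H)) ∈ ({x, y} : Set (P : Subgroup H)) := by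
        rw [huniv]; trivial
      have e2 : (⟨c, hc'⟩ : (P : Subgroup H)) ∈ ({x, y} : Set (P : Subgroup H)) := by
        rw [huniv]; trivial
      have e3 : (1 : (P : Subgroup H)) ∈ ({x, y} : Set (P : Subgroup H)) := by
        rw [huniv]; trivial
      have n1 : (⟨b, hb⟩ : (P : Subgroup H)) ≠ 1 := fun h => hb1 (congrArg Subtype.val h)
      have n2 : (⟨c, hc'⟩ : (P : Subgroup H)) ≠ 1 := fun h => hc1 (congrArg Subtype.val h)
      rcases e1 with e1 | e1 <;> rcases e2 with e2 | e2 <;> rcases e3 with e3 | e3
      · exact absurd (e1.trans e3.symm) n1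
      · exact congrArg Subtype.val (e1.trans e2.symm)
      · exact absurd (e1.trans e3.symm) n1
      · exact absurd (e2.trans e3.symm) n2
      · exact absurd (e2.trans e3.symm) n2
      · exact absurd (e1.trans e3.symm) n1
      · exact congrArg Subtype.val (e1.trans e2.symm)
      · exact absurd (e1.trans e3.symm) n1
    by_cases ha1 : a = 1
    · rw [ha1]; simp
    · have hga : g * a * g⁻¹ ∈ (P : Subgroup H) := by
        have := (Subgroup.mem_normalizer_iff.mp hg a).mp ha
        exact this
      have hga1 : g * a * g⁻¹ ≠ 1 := by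
        intro h
        apply ha1
        have : a = g⁻¹ * (g * a * g⁻¹) * g := by group
        rw [this, h]; simp
      have := hmem _ hga hga1 a ha' ha1
      calc a * g = (g * a * g⁻¹) * g := by rw [this]
        _ = g * a := by group
  have h2 := MonoidHom.ker_transferSylow_isComplement' P hP
  have h3 := h2.card_mul_card
  rw [hc] at h3
  have h4 : Nat.card (MonoidHom.transferSylow P hP).ker = 15 := by
    have h1'' : Nat.card (P : Subgroup H) = 2 := h1
    rw [h1''] at h3
    omega
  exact no15 hX (i.comp (MonoidHom.transferSylow P hP).ker.subtype)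
    (hi.comp (Subgroup.subtype_injective _)) (Or.inl h4)

/-- double transitivity of an action -/
def TT (G Z : Type*) [Group G] [MulAction G Z] : Prop :=
  ∀ a b c d : Z, a ≠ b → c ≠ d → ∃ g : G, g • a = c ∧ g • b = d

lemma TT.trans {G Z : Type*} [Group G] [MulAction G Z] (h : TT G Z) :
    MulAction.IsPretransitive G Z := by
  refine ⟨fun x y => ?_⟩
  by_cases hxy : x = y
  · exact ⟨1, by rw [one_smul, hxy]⟩
  · obtain ⟨g, hg, -⟩ := h x y y x hxy (Ne.symm hxy)
    exact ⟨g, hg⟩

lemma TT.card {G Z : Type*} [Group G] [MulAction G Z] [Finite G] [Finite Z] (h : TT G Z) (a : Z)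
    (hne : ∃ b, b ≠ a) :
    Nat.card Z * Nat.card (stabilizer G a) = Nat.card G ∧
      (Nat.card Z - 1) ∣ Nat.card (stabilizer G a) := by
  have := h.trans
  have h1 := MulAction.index_stabilizer_of_transitive G a
  have h2 := (stabilizer G a).card_mul_index
  rw [h1] at h2
  refine ⟨by rw [mul_comm]; exact h2, ?_⟩
  obtain ⟨b, hb⟩ := hne
  have h3 := MulAction.index_stabilizer (stabilizer G a) b
  have h4 : MulAction.orbit (stabilizer G a) b = {a}ᶜ := by
    ext c
    rw [MulAction.mem_orbit_iff, Set.mem_compl_iff, Set.mem_singleton_iff]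
    constructor
    · rintro ⟨g, rfl⟩ hc
      have hg : (g : G) • a = a := g.2
      have : (g : G) • b = (g : G) • a := by rw [hg]; exact hc
      exact hb (MulAction.injective _ this)
    · intro hc
      obtain ⟨g, hg1, hg2⟩ := h a b a c (Ne.symm hb) (Ne.symm hc)
      exact ⟨⟨g, hg1⟩, hg2⟩
  rw [h4, Set.ncard_compl, Set.ncard_singleton] at h3
  rw [← h3]
  exact Subgroup.index_dvd_card _

/-- the arithmetic of the possible orders -/
lemma arith (N g h hx p k : ℕ) (hp : p.Prime) (h1 : N * h = g) (h2 : (N - 1) ∣ h)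
    (h3 : 6 * hx = g) (h4 : 5 ∣ hx) (h5 : g ∣ 720) (h6 : 5 ≤ N) (h7 : (k + 1) * p = N - 1)
    (h8 : h ∣ p ^ (k + 1) * (k + 1)!) :
    g = 30 ∨ hx = 15 ∨ hx = 30 ∨ h = 15 ∨ h = 45 := by
  have hN : N * (N - 1) ∣ 720 := (Nat.mul_dvd_mul_left N h2).trans (h1 ▸ h5)
  have hle : N * (N - 1) ≤ 720 := Nat.le_of_dvd (by norm_num) hN
  have hN27 : N ≤ 27 := by
    by_contra hcon
    have a1 : 28 * 27 ≤ N * (N - 1) := Nat.mul_le_mul (by omega) (by omega)
    omega
  have hg0 : 0 < g := Nat.pos_of_dvd_of_pos h5 (by norm_num)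
  obtain ⟨c, hc⟩ := h4
  obtain ⟨d, hd⟩ := h2
  have hcases : N = 5 ∨ N = 6 ∨ N = 9 ∨ N = 10 ∨ N = 16 := by
    clear h1 h7 hd hle
    interval_cases N <;> revert hN <;> decide
  rcases hcases with rfl | rfl | rfl | rfl | rfl
  · -- N = 5
    have hp2 : p = 2 := by
      have : p ∣ 2 ^ 2 := ⟨k + 1, by simp at h7; linarith⟩
      exact (Nat.prime_dvd_prime_iff_eq hp Nat.prime_two).mp (hp.dvd_of_dvd_pow this)
    subst hp2
    have hk : k = 1 := by omega
    subst hk
    have h9 : h ∣ 8 := h8
    have h10 := Nat.le_of_dvd (by norm_num) h9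
    interval_cases h <;> omega
  · -- N = 6
    have hp5 : p = 5 := by
      have : p ∣ 5 := ⟨k + 1, by simp at h7; linarith⟩
      exact (Nat.prime_dvd_prime_iff_eq hp (by norm_num)).mp this
    subst hp5
    have hk : k = 0 := by omega
    subst hk
    have h9 : h ∣ 5 := h8
    have h10 := Nat.le_of_dvd (by norm_num) h9
    interval_cases h <;> omega
  · -- N = 9
    have hp2 : p = 2 := by
      have : p ∣ 2 ^ 3 := ⟨k + 1, by simp at h7; linarith⟩
      exact (Nat.prime_dvd_prime_iff_eq hp Nat.prime_two).mp (hp.dvd_of_dvd_pow this)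
    subst hp2
    have hk : k = 3 := by omega
    subst hk
    have h9 : h ∣ 384 := h8
    exfalso
    have h11 : 5 ∣ h := by
      have : 5 ∣ 9 * h := ⟨6 * c, by omega⟩
      exact (Nat.Coprime.dvd_mul_left (by norm_num)).mp this
    exact absurd (h11.trans h9) (by norm_num)
  · -- N = 10
    have hp3 : p = 3 := by
      have : p ∣ 3 ^ 2 := ⟨k + 1, by simp at h7; linarith⟩
      exact (Nat.prime_dvd_prime_iff_eq hp Nat.prime_three).mp (hp.dvd_of_dvd_pow this)
    subst hp3
    have hk : k = 2 := by omega
    subst hk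
    have h9 : h ∣ 162 := h8
    have h10 : 10 * h ∣ 10 * 72 := by rw [h1]; exact h5
    have h11 : h ∣ 72 := Nat.dvd_of_mul_dvd_mul_left (by norm_num) h10
    have h12 : h ∣ 18 := by
      have := Nat.dvd_gcd h9 h11
      exact this
    have h13 := Nat.le_of_dvd (by norm_num) h12
    have h14 : d = 1 ∨ d = 2 := by omega
    rcases h14 with rfl | rfl <;> omega
  · -- N = 16
    have h10 : 16 * h ∣ 16 * 45 := by rw [h1]; exact h5
    have h11 : h ∣ 45 := Nat.dvd_of_mul_dvd_mul_left (by norm_num) h10
    have h13 := Nat.le_of_dvd (by norm_num) h11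
    have h14 : d = 1 ∨ d = 2 ∨ d = 3 := by omega
    rcases h14 with rfl | rfl | rfl
    · omega
    · exfalso
      rw [hd] at h11
      revert h11
      decide
    · omega

/-- Two faithful doubly transitive actions, one of degree `6`: no nontrivial permutation of the
other set fixes a point and commutes with its stabilizer. -/
theorem main {G X Y : Type*} [Group G] [Finite G] [MulAction G X] [MulAction G Y] [Finite X]
    [Finite Y] [FaithfulSMul G X] [FaithfulSMul G Y] (hX : Nat.card X = 6) (h2X : TT G X)
    (h2Y : TT G Y) (y : Y) (z : Perm Y) (hzy : z y = y) (hz1 : z ≠ 1)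
    (hc : ∀ g : G, g • y = y → ∀ w, g • z w = z (g • w)) : False := by
  classical
  have := Fintype.ofFinite X
  have := Fintype.ofFinite Y
  -- powers
  have hpow : ∀ n : ℕ, (z ^ n) y = y ∧ ∀ g : G, g • y = y → ∀ w, g • (z ^ n) w = (z ^ n) (g • w) := by
    intro n
    induction n with
    | zero => exact ⟨rfl, fun g _ w => rfl⟩
    | succ n ih =>
      refine ⟨?_, fun g hg w => ?_⟩
      · rw [pow_succ', Perm.mul_apply, ih.1, hzy]
      · rw [pow_succ', Perm.mul_apply, Perm.mul_apply, hc g hg, ih.2 g hg]
  obtain ⟨z', hz'y, hc', hp⟩ : ∃ z' : Perm Y, z' y = y ∧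
      (∀ g : G, g • y = y → ∀ w, g • z' w = z' (g • w)) ∧ (orderOf z').Prime := by
    have h1 : orderOf z ≠ 1 := fun h => hz1 (orderOf_eq_one_iff.mp h)
    have h2 := Nat.minFac_prime h1
    refine ⟨z ^ (orderOf z / (orderOf z).minFac), (hpow _).1, (hpow _).2, ?_⟩
    rw [orderOf_pow_orderOf_div (orderOf_pos z).ne' (Nat.minFac_dvd _)]
    exact h2
  have hz'1 : z' ≠ 1 := by
    intro h
    rw [h, orderOf_one] at hp
    exact absurd hp (by norm_num)
  -- no further fixed point
  have hfree : ∀ w, w ≠ y → z' w ≠ w := by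
    intro w hw hzw
    apply hz'1
    ext v
    rw [Perm.one_apply]
    by_cases hv : v = y
    · rw [hv, hz'y]
    · obtain ⟨g, hg1, hg2⟩ := h2Y y w y v (Ne.symm hw) (Ne.symm hv)
      rw [← hg2, ← hc' g hg1, hzw]
  have hsupp : z'.support = {y}ᶜ := by
    ext w
    rw [Perm.mem_support, Finset.mem_compl, Finset.mem_singleton]
    constructor
    · intro h hw
      exact h (by rw [hw, hz'y])
    · exact hfree w
  have hne : ∃ w, w ≠ y := by
    by_contra hcon
    push Not at hcon
    exact hz'1 (by ext v; rw [hcon v, hz'y]; rfl)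
  have hsc : z'.support.card = Nat.card Y - 1 := by
    rw [hsupp, Finset.card_compl, Finset.card_singleton, Nat.card_eq_fintype_card]
  obtain ⟨k, hk, hcent⟩ := centCard z' hp
  have hYpos : 0 < Nat.card Y := Nat.card_pos_iff.mpr ⟨⟨y⟩, inferInstance⟩
  rw [hsc, ← Nat.card_eq_fintype_card] at hcent
  rw [hsc] at hk
  have hone : (Nat.card Y - (Nat.card Y - 1))! = 1 := by
    rw [show Nat.card Y - (Nat.card Y - 1) = 1 by omega]
    rfl
  rw [hone, one_mul] at hcent
  -- the stabilizer in the centralizer
  have hdvd : Nat.card (stabilizer G y) ∣ Nat.card (Subgroup.centralizer {z'}) := by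
    let F0 : stabilizer G y →* Subgroup.centralizer {z'} :=
      ((MulAction.toPermHom G Y).comp (stabilizer G y).subtype).codRestrict _ (by
        intro g
        rw [Subgroup.mem_centralizer_iff]
        intro v hv
        rw [Set.mem_singleton_iff] at hv
        subst hv
        ext w
        exact (hc' g g.2 w).symm)
    refine Subgroup.card_dvd_of_injective F0 ?_
    intro a b hab
    have h1 : MulAction.toPermHom G Y (a : G) = MulAction.toPermHom G Y (b : G) :=
      congrArg Subtype.val hab
    exact Subtype.ext (MulAction.toPerm_injective h1)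
  rw [hcent] at hdvd
  -- orders
  obtain ⟨x⟩ : Nonempty X := (Nat.card_pos_iff.mp (by rw [hX]; norm_num)).1
  have hneX : ∃ b, b ≠ x := by
    by_contra hcon
    push Not at hcon
    have : Nat.card X ≤ 1 := by
      rw [Nat.card_eq_fintype_card, Fintype.card_le_one_iff]
      intro a b
      rw [hcon a, hcon b]
    omega
  obtain ⟨a1, a2⟩ := h2X.card x hneX
  obtain ⟨b1, b2⟩ := h2Y.card y hne
  rw [hX] at a1 a2
  have hiX : Function.Injective (MulAction.toPermHom G X) := MulAction.toPerm_injective
  have hiY : Function.Injective (MulAction.toPermHom G Y) := MulAction.toPerm_injective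
  have c1 : Nat.card G ∣ 720 := by
    have := Subgroup.card_dvd_of_injective _ hiX
    rw [Nat.card_perm, hX] at this
    exact this
  have c2 : Nat.card G ∣ (Nat.card Y)! := by
    have := Subgroup.card_dvd_of_injective _ hiY
    rwa [Nat.card_perm] at this
  have c3 : 5 ≤ Nat.card Y := by
    rw [← Nat.Prime.dvd_factorial (by norm_num)]
    refine Dvd.dvd.trans ?_ c2
    rw [← a1]
    exact Dvd.dvd.mul_left a2 6
  rcases arith (Nat.card Y) (Nat.card G) _ _ _ _ hp b1 b2 a1 a2 c1 c3 hk hdvd with
    h | h | h | h | h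
  · exact no30 hX _ hiX h
  · exact no15 hX ((MulAction.toPermHom G X).comp (stabilizer G x).subtype)
      (hiX.comp (Subgroup.subtype_injective _)) (Or.inl h)
  · exact no30 hX ((MulAction.toPermHom G X).comp (stabilizer G x).subtype)
      (hiX.comp (Subgroup.subtype_injective _)) h
  · exact no15 hX ((MulAction.toPermHom G X).comp (stabilizer G y).subtype)
      (hiX.comp (Subgroup.subtype_injective _)) (Or.inl h)
  · exact no15 hX ((MulAction.toPermHom G X).comp (stabilizer G y).subtype)
      (hiX.comp (Subgroup.subtype_injective _)) (Or.inr h)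

end Pool.Agent.H101R.Qd
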