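import Mathlib
import Pool.Agent.H101R.Qd.Fin

/-!
# Commuting normal subgroups in doubly transitive actions
-/

set_option autoImplicit false

namespace Pool.Agent.H101R.Qd

open Equiv MulAction

section
variable {K Z : Type*} [Group K] [MulAction K Z]

lemma normal_trans (h2 : TT K Z) (A : Subgroup K) [hn : A.Normal]
    (hA : ∃ a ∈ A, ∃ w : Z, a • w ≠ w) (x y : Z) : ∃ a ∈ A, a • x = y := by
  by_cases hxy : x = y
  · exact ⟨1, A.one_mem, by rw [one_smul, hxy]⟩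
  · obtain ⟨a, ha, w, hw⟩ := hA
    obtain ⟨g, hg1, hg2⟩ := h2 w (a • w) x y (Ne.symm hw) hxy
    refine ⟨g * a * g⁻¹, hn.conj_mem a ha g, ?_⟩
    rw [← hg1, mul_smul, mul_smul, inv_smul_smul, hg2]

lemma semireg (h2 : TT K Z) (A B : Subgroup K) [B.Normal]
    (hcomm : ∀ a ∈ A, ∀ b ∈ B, ∀ w : Z, a • b • w = b • a • w)
    (hB : ∃ b ∈ B, ∃ w : Z, b • w ≠ w) (a : K) (ha : a ∈ A) (x : Z) (hx : a • x = x) (y : Z) :
    a • y = y := by
  obtain ⟨b, hb, rfl⟩ := normal_trans h2 B hB x y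
  rw [hcomm a ha b hb, hx]

lemma conj_eq (h2 : TT K Z) (A B : Subgroup K) [hn : A.Normal] [B.Normal]
    (hcomm : ∀ a ∈ A, ∀ b ∈ B, ∀ w : Z, a • b • w = b • a • w)
    (hB : ∃ b ∈ B, ∃ w : Z, b • w ≠ w) (a a' : K) (ha : a ∈ A) (ha' : a' ∈ A)
    (h1 : ∃ w : Z, a • w ≠ w) (h1' : ∃ w : Z, a' • w ≠ w) :
    ∃ g : K, ∀ w : Z, (g * a * g⁻¹) • w = a' • w := by
  obtain ⟨x, hx⟩ := h1
  obtain ⟨v, hv⟩ := h1'
  have hx' : a' • x ≠ x := fun h => hv (semireg h2 A B hcomm hB a' ha' x h v)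
  obtain ⟨g, hg1, hg2⟩ := h2 x (a • x) x (a' • x) (Ne.symm hx) (Ne.symm hx')
  refine ⟨g, fun w => ?_⟩
  have hmem : a'⁻¹ * (g * a * g⁻¹) ∈ A := A.mul_mem (A.inv_mem ha') (hn.conj_mem a ha g)
  have hfix : (a'⁻¹ * (g * a * g⁻¹)) • x = x := by
    have hgx : g⁻¹ • x = x := by rw [inv_smul_eq_iff, hg1]
    rw [mul_smul, mul_smul, mul_smul, hgx, hg2, inv_smul_smul]
  have := semireg h2 A B hcomm hB _ hmem x hfix w
  rwa [mul_smul, inv_smul_eq_iff] at this

/-- the image in the permutations -/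
def im (A : Subgroup K) (Z : Type*) [MulAction K Z] : Subgroup (Perm Z) :=
  A.map (MulAction.toPermHom K Z)

lemma conj_im (h2 : TT K Z) (A B : Subgroup K) [hn : A.Normal] [B.Normal]
    (hcomm : ∀ a ∈ A, ∀ b ∈ B, ∀ w : Z, a • b • w = b • a • w)
    (hB : ∃ b ∈ B, ∃ w : Z, b • w ≠ w) (s t : Perm Z) (hs : s ∈ im A Z) (ht : t ∈ im A Z)
    (hs1 : s ≠ 1) (ht1 : t ≠ 1) :
    ∃ g : K, toPermHom K Z g * s * (toPermHom K Z g)⁻¹ = t := by
  obtain ⟨a, ha, rfl⟩ := hs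
  obtain ⟨a', ha', rfl⟩ := ht
  have e1 : ∃ w : Z, a • w ≠ w := by
    by_contra hcon
    push Not at hcon
    exact hs1 (by ext w; exact hcon w)
  have e2 : ∃ w : Z, a' • w ≠ w := by
    by_contra hcon
    push Not at hcon
    exact ht1 (by ext w; exact hcon w)
  obtain ⟨g, hg⟩ := conj_eq h2 A B hcomm hB a a' ha ha' e1 e2
  refine ⟨g, ?_⟩
  rw [← map_inv, ← map_mul, ← map_mul]
  ext w
  exact hg w

lemma im_conj_mem (A : Subgroup K) [hn : A.Normal] (s : Perm Z) (hs : s ∈ im A Z) (g : K) :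
    toPermHom K Z g * s * (toPermHom K Z g)⁻¹ ∈ im A Z := by
  obtain ⟨a, ha, rfl⟩ := hs
  refine ⟨g * a * g⁻¹, hn.conj_mem a ha g, ?_⟩
  rw [map_mul, map_mul, map_inv]

/-- Commuting normal subgroups do not both act nontrivially on `6` points. -/
theorem six [Finite Z] (hZ : Nat.card Z = 6) (h2 : TT K Z) (A B : Subgroup K) [hn : A.Normal]
    [B.Normal] (hcomm : ∀ a ∈ A, ∀ b ∈ B, ∀ w : Z, a • b • w = b • a • w)
    (hA : ∃ a ∈ A, ∃ w : Z, a • w ≠ w) (hB : ∃ b ∈ B, ∃ w : Z, b • w ≠ w) : False := by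
  obtain ⟨x⟩ : Nonempty Z := (Nat.card_pos_iff.mp (by rw [hZ]; norm_num)).1
  have hcard : Nat.card (im A Z) = 6 := by
    rw [← hZ]
    refine Nat.card_congr (Equiv.ofBijective (fun s : im A Z => s.1 x) ⟨?_, ?_⟩)
    · intro s t hst
      obtain ⟨s, a, ha, rfl⟩ := s
      obtain ⟨t, b, hb, rfl⟩ := t
      apply Subtype.ext
      ext w
      have h3 : a • x = b • x := hst
      have h4 : (b⁻¹ * a) • x = x := by rw [mul_smul, h3, inv_smul_smul]
      have h5 := semireg h2 A B hcomm hB (b⁻¹ * a) (A.mul_mem (A.inv_mem hb) ha) x h4 w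
      rw [mul_smul, inv_smul_eq_iff] at h5
      exact h5
    · intro y
      obtain ⟨a, ha, hay⟩ := normal_trans h2 A hA x y
      exact ⟨⟨toPermHom K Z a, a, ha, rfl⟩, hay⟩
  have : Fact (Nat.Prime 2) := ⟨by norm_num⟩
  have : Fact (Nat.Prime 3) := ⟨by norm_num⟩
  obtain ⟨s, hs⟩ := exists_prime_orderOf_dvd_card' (G := im A Z) 2 (by rw [hcard]; norm_num)
  obtain ⟨t, ht⟩ := exists_prime_orderOf_dvd_card' (G := im A Z) 3 (by rw [hcard]; norm_num)
  rw [← Subgroup.orderOf_coe] at hs ht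
  obtain ⟨g, hg⟩ := conj_im h2 A B hcomm hB s.1 t.1 s.2 t.2
    (by intro h; rw [h, orderOf_one] at hs; exact absurd hs (by norm_num))
    (by intro h; rw [h, orderOf_one] at ht; exact absurd ht (by norm_num))
  have h5 : orderOf (toPermHom K Z g * s.1 * (toPermHom K Z g)⁻¹) = orderOf s.1 := by
    have := orderOf_injective (MulAut.conj (toPermHom K Z g)).toMonoidHom
      (MulAut.conj (toPermHom K Z g)).injective s.1
    simpa using this
  rw [hg, ht, hs] at h5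
  norm_num at h5

/-- Commuting normal subgroups with trivial intersection do not both act nontrivially. -/
theorem general [Finite Z] (h2 : TT K Z) (A B : Subgroup K) [hn : A.Normal]
    [B.Normal] (hcomm : ∀ a ∈ A, ∀ b ∈ B, ∀ w : Z, a • b • w = b • a • w)
    (hA : ∃ a ∈ A, ∃ w : Z, a • w ≠ w) (hB : ∃ b ∈ B, ∃ w : Z, b • w ≠ w)
    (hint : ∀ a ∈ A, ∀ b ∈ B, (∀ w : Z, a • w = b • w) → ∀ w : Z, b • w = w) : False := by
  classical
  have hne1 : ∃ s : im A Z, s ≠ 1 := by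
    obtain ⟨a, ha, w, hw⟩ := hA
    refine ⟨⟨toPermHom K Z a, a, ha, rfl⟩, fun h => hw ?_⟩
    have := congrArg Subtype.val h
    exact congrArg (fun s : Perm Z => s w) this
  obtain ⟨s0, hs0⟩ := hne1
  have : Nontrivial (im A Z) := ⟨⟨s0, 1, hs0⟩⟩
  have hcard1 : Nat.card (im A Z) ≠ 1 := by
    intro h
    have := (Nat.card_eq_one_iff_unique.mp h).1
    exact hs0 (Subsingleton.elim _ _)
  have hp := Nat.minFac_prime hcard1
  set p := (Nat.card (im A Z)).minFac with hpdef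
  have : Fact p.Prime := ⟨hp⟩
  obtain ⟨t, ht⟩ := exists_prime_orderOf_dvd_card' (G := im A Z) p (Nat.minFac_dvd _)
  have ht1 : t.1 ≠ 1 := by
    intro h
    have : t = 1 := Subtype.ext h
    rw [this, orderOf_one] at ht
    exact absurd hp (by rw [← ht]; norm_num)
  have hpg : IsPGroup p (im A Z) := by
    rw [IsPGroup.iff_orderOf]
    intro s
    by_cases hs : s = 1
    · exact ⟨0, by rw [hs, orderOf_one, pow_zero]⟩
    · refine ⟨1, ?_⟩
      have hs' : s.1 ≠ 1 := fun h => hs (Subtype.ext h)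
      obtain ⟨g, hg⟩ := conj_im h2 A B hcomm hB t.1 s.1 t.2 s.2 ht1 hs'
      have h5 : orderOf (toPermHom K Z g * t.1 * (toPermHom K Z g)⁻¹) = orderOf t.1 := by
        have := orderOf_injective (MulAut.conj (toPermHom K Z g)).toMonoidHom
          (MulAut.conj (toPermHom K Z g)).injective t.1
        simpa using this
      rw [hg, Subgroup.orderOf_coe, Subgroup.orderOf_coe, ht] at h5
      rw [h5, pow_one]
  have hcn := hpg.center_nontrivial
  obtain ⟨⟨c, hcc⟩, hc1⟩ := exists_ne (1 : Subgroup.center (im A Z))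
  have hc1' : c.1 ≠ 1 := by
    intro h
    exact hc1 (Subtype.ext (Subtype.ext h))
  have hcentral : ∀ t ∈ im A Z, t * c.1 = c.1 * t := by
    intro t ht
    have := Subgroup.mem_center_iff.mp hcc ⟨t, ht⟩
    exact congrArg Subtype.val this
  -- the image is commutative
  have habel : ∀ s ∈ im A Z, ∀ t ∈ im A Z, t * s = s * t := by
    intro s hs t ht
    by_cases hs1 : s = 1
    · rw [hs1, one_mul, mul_one]
    · obtain ⟨g, hg⟩ := conj_im h2 A B hcomm hB c.1 s c.2 hs hc1' hs1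
      set γ := toPermHom K Z g with hγ
      have hmem : γ⁻¹ * t * γ ∈ im A Z := by
        have := im_conj_mem A t ht g⁻¹
        rwa [map_inv, inv_inv] at this
      have h6 := hcentral _ hmem
      rw [← hg]
      calc t * (γ * c.1 * γ⁻¹) = γ * ((γ⁻¹ * t * γ) * c.1) * γ⁻¹ := by group
        _ = γ * (c.1 * (γ⁻¹ * t * γ)) * γ⁻¹ := by rw [h6]
        _ = γ * c.1 * γ⁻¹ * t := by group
  obtain ⟨b, hb, x, hbx⟩ := hB
  obtain ⟨a, ha, hax⟩ := normal_trans h2 A hA x (b • x)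
  refine hbx (hint a ha b hb (fun w => ?_) x)
  obtain ⟨a', ha', rfl⟩ := normal_trans h2 A hA x w
  have h7 := habel (toPermHom K Z a) ⟨a, ha, rfl⟩ (toPermHom K Z a') ⟨a', ha', rfl⟩
  have h8 : a' • a • x = a • a' • x := congrArg (fun s : Perm Z => s x) h7
  rw [← h8, hax, hcomm a' ha' b hb]

end

end Pool.Agent.H101R.Qd
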