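import Mathlib
import Pool.Agent.H101R.Qd.Reg

/-!
# Doubly transitive homomorphisms of quandles and fibers with six elements
-/

set_option autoImplicit false

namespace Pool.Agent.H101R.Qd

open Equiv MulAction

lemma ais {T : Type*} (g : Perm T) (x : T) : g (g⁻¹ x) = x := by simp

lemma ias {T : Type*} (g : Perm T) (x : T) : g⁻¹ (g x) = x := by simp

section
variable {P Q : Type*} (s : P → Perm P) (t : Q → Perm Q) (f : P → Q)

/-- the group generated by the permutations of the quandle -/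
def InnG : Subgroup (Perm P) := Subgroup.closure (Set.range s)

/-- the relative group -/
def KK : Subgroup (Perm P) where
  carrier := {g | g ∈ InnG s ∧ ∀ x, f (g x) = f x}
  mul_mem' := by
    rintro a b ⟨ha, ha'⟩ ⟨hb, hb'⟩
    exact ⟨(InnG s).mul_mem ha hb, fun x => by rw [Perm.mul_apply, ha', hb']⟩
  one_mem' := ⟨(InnG s).one_mem, fun x => rfl⟩
  inv_mem' := by
    rintro a ⟨ha, ha'⟩
    refine ⟨(InnG s).inv_mem ha, fun x => ?_⟩
    have := ha' (a⁻¹ x)
    rw [ais] at this
    exact this.symm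

/-- fibers -/
def Fib (q : Q) : Type _ := {x // f x = q}

instance (q : Q) : MulAction (KK s f) (Fib f q) where
  smul g x := ⟨g.1 x.1, by rw [g.2.2]; exact x.2⟩
  one_smul x := rfl
  mul_smul g h x := rfl

lemma smul_val (q : Q) (g : KK s f) (x : Fib f q) : (g • x).1 = g.1 x.1 := rfl

variable (hd : ∀ x y z, s x (s y z) = s (s x y) (s x z)) (hfix : ∀ x, s x x = x)
  (hf : ∀ x y, f (s x y) = t (f x) (f y))

include hd in
lemma aut (g : Perm P) (hg : g ∈ InnG s) : ∀ x y, g (s x y) = s (g x) (g y) := by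
  induction hg using Subgroup.closure_induction with
  | mem g hg =>
    obtain ⟨z, rfl⟩ := hg
    intro x y
    exact hd z x y
  | one => intro x y; rfl
  | mul g h _ _ ihg ihh => intro x y; simp only [Perm.mul_apply]; rw [ihh, ihg]
  | inv g _ ih =>
    intro x y
    apply g.injective
    rw [ais, ih, ais, ais]

include hd in
lemma aut_inv (g : Perm P) (hg : g ∈ InnG s) (x y : P) :
    g ((s x)⁻¹ y) = (s (g x))⁻¹ (g y) := by
  rw [Perm.eq_inv_iff_eq, ← aut s hd g hg, ais]

include hf in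
lemma descend (g : Perm P) (hg : g ∈ InnG s) : ∃ h : Perm Q, ∀ x, f (g x) = h (f x) := by
  induction hg using Subgroup.closure_induction with
  | mem g hg =>
    obtain ⟨z, rfl⟩ := hg
    exact ⟨t (f z), fun x => hf z x⟩
  | one => exact ⟨1, fun x => rfl⟩
  | mul g h _ _ ihg ihh =>
    obtain ⟨a, ha⟩ := ihg
    obtain ⟨b, hb⟩ := ihh
    exact ⟨a * b, fun x => by rw [Perm.mul_apply, ha, hb, Perm.mul_apply]⟩
  | inv g _ ih =>
    obtain ⟨a, ha⟩ := ih
    refine ⟨a⁻¹, fun x => ?_⟩
    rw [Perm.eq_inv_iff_eq, ← ha, ais]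

include hf in
lemma f_inv (x y : P) : f ((s x)⁻¹ y) = (t (f x))⁻¹ (f y) := by
  rw [Perm.eq_inv_iff_eq, ← hf, ais]

lemma s_mem (x : P) : s x ∈ InnG s := Subgroup.subset_closure ⟨x, rfl⟩

/-- the differences -/
def dl (x y : P) (h : f x = f y) : KK s f :=
  ⟨s x * (s y)⁻¹, (InnG s).mul_mem (s_mem s x) ((InnG s).inv_mem (s_mem s y)), fun w => by
    rw [Perm.mul_apply, hf, f_inv s t f hf, h, ais]⟩

/-- the group generated by the differences in one fiber -/
def MM (r : Q) : Subgroup (KK s f) :=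
  Subgroup.closure {m | ∃ x y, f x = r ∧ f y = r ∧ m.1 = s x * (s y)⁻¹}

include hd in
lemma conj_diff (g : KK s f) (x y : P) :
    g.1 * (s x * (s y)⁻¹) * (g.1)⁻¹ = s (g.1 x) * (s (g.1 y))⁻¹ := by
  ext w
  simp only [Perm.mul_apply]
  rw [aut s hd g.1 g.2.1, aut_inv s hd g.1 g.2.1, ais]

include hd in
lemma MM_normal (r : Q) : (MM s f r).Normal := by
  refine ⟨fun n hn g => ?_⟩
  induction hn using Subgroup.closure_induction with
  | mem m hm =>
    obtain ⟨x, y, hx, hy, hm⟩ := hm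
    refine Subgroup.subset_closure ⟨g.1 x, g.1 y, ?_, ?_, ?_⟩
    · rw [g.2.2, hx]
    · rw [g.2.2, hy]
    · rw [← conj_diff s f hd g x y, ← hm]
      rfl
  | one => rw [mul_one, mul_inv_cancel]; exact Subgroup.one_mem _
  | mul a b _ _ iha ihb =>
    have : g * (a * b) * g⁻¹ = (g * a * g⁻¹) * (g * b * g⁻¹) := by group
    rw [this]
    exact Subgroup.mul_mem _ iha ihb
  | inv a _ ih =>
    have : g * a⁻¹ * g⁻¹ = (g * a * g⁻¹)⁻¹ := by group
    rw [this]
    exact Subgroup.inv_mem _ ih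

/-- an element that commutes with all `s x`, `x` in the fiber, commutes with the group of
differences -/
lemma comm_MM (r : Q) (g : Perm P) (hg : ∀ x, f x = r → ∀ w, g (s x w) = s x (g w))
    (m : KK s f) (hm : m ∈ MM s f r) : ∀ w, g (m.1 w) = m.1 (g w) := by
  have hg' : ∀ x, f x = r → ∀ w, g ((s x)⁻¹ w) = (s x)⁻¹ (g w) := by
    intro x hx w
    rw [Perm.eq_inv_iff_eq, ← hg x hx, ais]
  induction hm using Subgroup.closure_induction with
  | mem m hm =>
    obtain ⟨x, y, hx, hy, hm⟩ := hm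
    intro w
    rw [hm, Perm.mul_apply, hg x hx, hg' y hy, Perm.mul_apply]
  | one => intro w; rfl
  | mul a b _ _ iha ihb =>
    intro w
    have e : ∀ v, (a * b).1 v = a.1 (b.1 v) := fun v => rfl
    rw [e, iha, ihb, e]
  | inv a _ ih =>
    intro w
    have e : ∀ v, (a⁻¹).1 v = (a.1)⁻¹ v := fun v => rfl
    rw [e, e, Perm.eq_inv_iff_eq, ← ih, ais]

include hd hf in
/-- Some difference moves a point of the given fiber with six elements. -/
lemma exists_moving (q : Q) (h2 : TT (KK s f) (Fib f q)) (h6 : Nat.card (Fib f q) = 6) :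
    ∃ x y w, f x = f y ∧ f w = q ∧ s x ((s y)⁻¹ w) ≠ w := by
  by_contra hcon
  push Not at hcon
  have claim1 : ∀ h ∈ InnG s, ∀ x y w, f x = f y → f w = q → s x ((s y)⁻¹ (h w)) = h w := by
    intro h hh x y w hxy hw
    have hh' := (InnG s).inv_mem hh
    obtain ⟨k, hk⟩ := descend s t f hf h⁻¹ hh'
    have h1 := hcon (h⁻¹ x) (h⁻¹ y) w (by rw [hk, hk, hxy]) hw
    have h3 := congrArg h h1
    rw [aut s hd h hh, aut_inv s hd h hh, ais, ais] at h3
    exact h3
  have claim2 : ∀ h ∈ InnG s, ∀ g ∈ KK s f, ∀ h' ∈ InnG s, ∀ w, f w = q →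
      g (h (h' w)) = h (g (h' w)) := by
    intro h hh
    induction hh using Subgroup.closure_induction with
    | mem h hh =>
      obtain ⟨x, rfl⟩ := hh
      intro g hg h' hh' w hw
      rw [aut s hd g hg.1]
      have h1 := claim1 (s x * (g * h')) ((InnG s).mul_mem (s_mem s x)
        ((InnG s).mul_mem hg.1 hh')) (g x) x w (hg.2 x) hw
      simp only [Perm.mul_apply] at h1
      rw [ias] at h1
      exact h1
    | one => intro g hg h' hh' w hw; rfl
    | mul a b ha hb iha ihb =>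
      intro g hg h' hh' w hw
      have e1 := iha g hg (b * h') ((InnG s).mul_mem hb hh') w hw
      have e2 := ihb g hg h' hh' w hw
      simp only [Perm.mul_apply] at e1 e2 ⊢
      rw [e1, e2]
    | inv a ha ih =>
      intro g hg h' hh' w hw
      have e1 := ih g hg (a⁻¹ * h') ((InnG s).mul_mem ((InnG s).inv_mem ha) hh') w hw
      simp only [Perm.mul_apply] at e1 ⊢
      rw [Perm.eq_inv_iff_eq, ← e1, ais]
  -- three points
  have : Finite (Fib f q) := (Nat.card_pos_iff.mp (by rw [h6]; norm_num)).2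
  obtain ⟨e⟩ : Nonempty (Fib f q ≃ Fin 6) := ⟨Finite.equivFinOfCardEq h6⟩
  have hab : e.symm 0 ≠ e.symm 1 := fun h => by simpa using e.symm.injective h
  have hac : e.symm 0 ≠ e.symm 2 := fun h => by
    have := e.symm.injective h
    revert this
    decide
  have hbc : e.symm 1 ≠ e.symm 2 := fun h => by
    have := e.symm.injective h
    revert this
    decide
  obtain ⟨g, hg1, hg2⟩ := h2 (e.symm 0) (e.symm 1) (e.symm 0) (e.symm 2) hab hac
  obtain ⟨h, hh1, hh2⟩ := h2 (e.symm 0) (e.symm 1) (e.symm 1) (e.symm 2) hab hbc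
  have h3 := claim2 h.1 h.2.1 g.1 g.2 1 (InnG s).one_mem (e.symm 0).1 (e.symm 0).2
  have h4 : g • h • e.symm 0 = h • g • e.symm 0 := Subtype.ext h3
  rw [hh1, hg2, hg1, hh1] at h4
  exact hbc h4.symm

end

end Pool.Agent.H101R.Qd
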