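import Mathlib
import Pool.Agent.H101R.Qd.Quan

/-!
# No doubly transitive homomorphism of quandles has a fiber with six elements
-/

set_option autoImplicit false

namespace Pool.Agent.H101R.Qd

open Equiv MulAction

section
variable {P Q : Type*} (s : P → Perm P) (t : Q → Perm Q) (f : P → Q)

/-- the kernel of the action on a fiber -/
def LL (q : Q) : Subgroup (KK s f) := (toPermHom (KK s f) (Fib f q)).ker

instance (q : Q) : (LL s f q).Normal := by unfold LL; infer_instance

lemma mem_LL (q : Q) (g : KK s f) : g ∈ LL s f q ↔ ∀ w : Fib f q, g • w = w := by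
  unfold LL
  rw [MonoidHom.mem_ker]
  constructor
  · intro h w
    exact congrArg (fun p : Perm (Fib f q) => p w) h
  · intro h
    ext w
    rw [toPermHom_apply, toPerm_apply, h w]
    rfl

variable (hd : ∀ x y z, s x (s y z) = s (s x y) (s x z)) (hfix : ∀ x, s x x = x)
  (hf : ∀ x y, f (s x y) = t (f x) (f y))

/-- `s y` on its own fiber -/
def zz (hf : ∀ x y, f (s x y) = t (f x) (f y)) (r : Q) (hr : t r r = r) (y : Fib f r) :
    Perm (Fib f r) where
  toFun w := ⟨s y.1 w.1, by rw [hf, y.2, w.2, hr]⟩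
  invFun w := ⟨(s y.1)⁻¹ w.1, by
    rw [f_inv s t f hf, y.2, w.2, Perm.inv_eq_iff_eq, hr]⟩
  left_inv w := Subtype.ext (ias _ _)
  right_inv w := Subtype.ext (ais _ _)

include hd in
lemma final (htt : ∀ q, TT (KK s f) (Fib f q)) (q r : Q) (h6 : Nat.card (Fib f q) = 6)
    (hfin : Finite (Fib f r)) (h1 : LL s f r ≤ LL s f q) (h2 : LL s f q ≤ LL s f r)
    (hr : t r r = r) (y : Fib f r) (hz : zz s t f hf r hr y ≠ 1)
    (hy : s y.1 y.1 = y.1) : False := by
  have hX : Finite (Fib f q) := (Nat.card_pos_iff.mp (by rw [h6]; norm_num)).2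
  let G := (KK s f) ⧸ (toPermHom (KK s f) (Fib f q)).ker
  let a : G →* Perm (Fib f q) := QuotientGroup.kerLift (toPermHom (KK s f) (Fib f q))
  have ha : Function.Injective a := QuotientGroup.kerLift_injective _
  let b : G →* Perm (Fib f r) := QuotientGroup.lift (toPermHom (KK s f) (Fib f q)).ker
    (toPermHom (KK s f) (Fib f r)) (fun g hg => h2 hg)
  have hb : Function.Injective b := by
    rw [injective_iff_map_eq_one]
    intro g
    induction g using QuotientGroup.induction_on with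
    | H g =>
      intro hg
      have : g ∈ LL s f r := hg
      exact (QuotientGroup.eq_one_iff g).mpr (h1 this)
  have hG : Finite G := Finite.of_injective a ha
  let iX : MulAction G (Fib f q) := MulAction.compHom (Fib f q) a
  let iY : MulAction G (Fib f r) := MulAction.compHom (Fib f r) b
  have eX : ∀ (g : KK s f) (x : Fib f q), (QuotientGroup.mk g : G) • x = g • x := fun g x => rfl
  have eY : ∀ (g : KK s f) (x : Fib f r), (QuotientGroup.mk g : G) • x = g • x := fun g x => rfl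
  have fX : FaithfulSMul G (Fib f q) := ⟨fun {m n} h => ha (Equiv.ext h)⟩
  have fY : FaithfulSMul G (Fib f r) := ⟨fun {m n} h => hb (Equiv.ext h)⟩
  refine main (G := G) (X := Fib f q) (Y := Fib f r) h6 ?_ ?_ y (zz s t f hf r hr y) ?_ hz ?_
  · intro u v u' v' huv huv'
    obtain ⟨g, g1, g2⟩ := htt q u v u' v' huv huv'
    exact ⟨QuotientGroup.mk g, g1, g2⟩
  · intro u v u' v' huv huv'
    obtain ⟨g, g1, g2⟩ := htt r u v u' v' huv huv'
    exact ⟨QuotientGroup.mk g, g1, g2⟩
  · exact Subtype.ext hy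
  · intro g
    induction g using QuotientGroup.induction_on with
    | H g =>
      intro hg w
      have hg' : g.1 y.1 = y.1 := congrArg Subtype.val hg
      apply Subtype.ext
      change g.1 (s y.1 w.1) = s y.1 (g.1 w.1)
      rw [aut s hd g.1 g.2.1, hg']

include hd hfix hf in
theorem no_six (htt : ∀ q, TT (KK s f) (Fib f q)) (q0 : Q) (h6 : Nat.card (Fib f q0) = 6) :
    False := by
  obtain ⟨x0, y0, w0, hxy, hw0, hmove⟩ := exists_moving s t f hd hf q0 (htt q0) h6
  set r := f x0 with hrdef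
  have hr : t r r = r := by
    have := hf x0 x0
    rw [hfix] at this
    exact this.symm
  have hr' : (t r)⁻¹ r = r := by rw [Perm.inv_eq_iff_eq, hr]
  set q1 := (t r)⁻¹ q0 with hq1
  have hX0 : Finite (Fib f q0) := (Nat.card_pos_iff.mp (by rw [h6]; norm_num)).2
  have h61 : Nat.card (Fib f q1) = 6 := by
    rw [← h6]
    refine Nat.card_congr ⟨fun v => ⟨s x0 v.1, ?_⟩, fun w => ⟨(s x0)⁻¹ w.1, ?_⟩, ?_, ?_⟩
    · rw [hf, v.2, hq1, ais]
    · rw [f_inv s t f hf, w.2]
    · intro v; exact Subtype.ext (ias _ _)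
    · intro v; exact Subtype.ext (ais _ _)
  have hX1 : Finite (Fib f q1) := (Nat.card_pos_iff.mp (by rw [h61]; norm_num)).2
  have hne0 : x0 ≠ y0 := by
    intro h
    apply hmove
    rw [← h, ais]
  -- the maps are determined by their restrictions
  have hinj : ∀ x y, f x = r → f y = r → (∀ w, f w = q0 → (s x)⁻¹ w = (s y)⁻¹ w) → x = y := by
    intro x y hx hy h
    by_contra hne
    obtain ⟨g, g1, g2⟩ := htt r ⟨x, hx⟩ ⟨y, hy⟩ ⟨x0, rfl⟩ ⟨y0, hxy.symm⟩
      (fun h => hne (congrArg Subtype.val h)) (fun h => hne0 (congrArg Subtype.val h))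
    have g1' : g.1 x = x0 := congrArg Subtype.val g1
    have g2' : g.1 y = y0 := congrArg Subtype.val g2
    apply hmove
    have hgi : (g.1)⁻¹ ∈ KK s f := (KK s f).inv_mem g.2
    have e1 : (s y0)⁻¹ w0 = (s x0)⁻¹ w0 := by
      have e2 := aut_inv s hd g.1 g.2.1 y ((g.1)⁻¹ w0)
      have e3 := aut_inv s hd g.1 g.2.1 x ((g.1)⁻¹ w0)
      rw [ais, g2'] at e2
      rw [ais, g1'] at e3
      rw [← e2, ← e3, h ((g.1)⁻¹ w0) (by rw [hgi.2, hw0])]
    rw [e1, ais]
  have hfin : Finite (Fib f r) := by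
    let F : Fib f r → (Fib f q0 → Fib f q1) := fun x w =>
      ⟨(s x.1)⁻¹ w.1, by rw [f_inv s t f hf, x.2, w.2]⟩
    have hF : Function.Injective F := by
      intro x y hxy'
      apply Subtype.ext
      refine hinj x.1 y.1 x.2 y.2 (fun w hw => ?_)
      have := congrFun hxy' ⟨w, hw⟩
      exact congrArg Subtype.val this
    exact Finite.of_injective F hF
  have hMn : (MM s f r).Normal := MM_normal s f hd r
  -- the differences move points of both fibers
  have hM0 : ∃ m ∈ MM s f r, ∃ w : Fib f q0, m • w ≠ w := by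
    refine ⟨dl s t f hf x0 y0 hxy, Subgroup.subset_closure ⟨x0, y0, rfl, hxy.symm, rfl⟩,
      ⟨w0, hw0⟩, fun h => hmove ?_⟩
    exact congrArg Subtype.val h
  have hM1 : ∃ m ∈ MM s f r, ∃ w : Fib f q1, m • w ≠ w := by
    have hy1 : f ((s x0)⁻¹ y0) = r := by
      rw [f_inv s t f hf, ← hxy, ← hrdef, hr']
    refine ⟨dl s t f hf x0 ((s x0)⁻¹ y0) hy1.symm,
      Subgroup.subset_closure ⟨x0, (s x0)⁻¹ y0, rfl, hy1, rfl⟩,
      ⟨(s x0)⁻¹ w0, by rw [f_inv s t f hf, hw0]⟩, fun h => hmove ?_⟩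
    have h1 : s x0 ((s ((s x0)⁻¹ y0))⁻¹ ((s x0)⁻¹ w0)) = (s x0)⁻¹ w0 := congrArg Subtype.val h
    rw [← aut_inv s hd (s x0)⁻¹ ((InnG s).inv_mem (s_mem s x0)), ais] at h1
    rw [h1, ais]
  -- the fiber over `r` is not a trivial quandle
  have hE : ∃ x y, f x = r ∧ f y = r ∧ s x y ≠ y := by
    by_contra hcon
    push Not at hcon
    have c1 : ∀ x, f x = r → ∀ m ∈ MM s f r, ∀ w, s x (m.1 w) = m.1 (s x w) := by
      intro x hx m hm
      refine comm_MM s f r (s x) (fun y hy w => ?_) m hm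
      rw [hd, hcon x y hx hy]
    refine six h6 (htt q0) (MM s f r) (MM s f r) ?_ hM0 hM0
    intro a ha b hb w
    apply Subtype.ext
    exact comm_MM s f r a.1 (fun x hx w => (c1 x hx a ha w).symm) b hb w.1
  -- the kernel on the fiber over `r`
  have hL : ∀ q, Nat.card (Fib f q) = 6 → (∃ m ∈ MM s f r, ∃ w : Fib f q, m • w ≠ w) →
      LL s f r ≤ LL s f q := by
    intro q hq hm g hg
    rw [mem_LL]
    have : Finite (Fib f q) := (Nat.card_pos_iff.mp (by rw [hq]; norm_num)).2
    by_contra hcon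
    push Not at hcon
    refine six hq (htt q) (LL s f r) (MM s f r) ?_ ⟨g, hg, hcon⟩ hm
    intro a ha b hb w
    apply Subtype.ext
    refine comm_MM s f r a.1 (fun x hx w => ?_) b hb w.1
    rw [mem_LL] at ha
    have hax : a.1 x = x := congrArg Subtype.val (ha ⟨x, hx⟩)
    rw [aut s hd a.1 a.2.1, hax]
  have hL0 := hL q0 h6 hM0
  have hL1 := hL q1 h61 hM1
  -- elements trivial on both fibers
  have hboth : LL s f q0 ⊓ LL s f q1 ≤ LL s f r := by
    rintro g ⟨hg0', hg1'⟩
    have hg0 := (mem_LL s f q0 g).mp hg0'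
    have hg1 := (mem_LL s f q1 g).mp hg1'
    rw [mem_LL]
    intro x
    apply Subtype.ext
    refine hinj _ _ (g • x).2 x.2 (fun w hw => ?_)
    have e1 : g.1 w = w := congrArg Subtype.val (hg0 ⟨w, hw⟩)
    have e2 : g.1 ((s x.1)⁻¹ w) = (s x.1)⁻¹ w :=
      congrArg Subtype.val (hg1 ⟨(s x.1)⁻¹ w, by rw [f_inv s t f hf, x.2, hw]⟩)
    have e3 := aut_inv s hd g.1 g.2.1 x.1 w
    rw [e1, e2] at e3
    exact e3.symm
  obtain ⟨xe, ye, hxe, hye, hne⟩ := hE
  have hz : zz s t f hf r hr ⟨xe, hxe⟩ ≠ 1 := by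
    intro h
    apply hne
    have := congrArg (fun p : Perm (Fib f r) => (p ⟨ye, hye⟩).1) h
    exact this
  by_cases hA : ∃ a ∈ LL s f q0, ∃ w : Fib f r, a • w ≠ w
  · by_cases hB : ∃ b ∈ LL s f q1, ∃ w : Fib f r, b • w ≠ w
    · refine general (htt r) (LL s f q0) (LL s f q1) ?_ hA hB ?_
      · intro a ha b hb w
        have hc : (b * a)⁻¹ * (a * b) ∈ LL s f q0 ⊓ LL s f q1 := by
          constructor
          · have : (b * a)⁻¹ * (a * b) = a⁻¹ * (b⁻¹ * a * (b⁻¹)⁻¹) := by group
            rw [this]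
            exact Subgroup.mul_mem _ (Subgroup.inv_mem _ ha)
              (Subgroup.Normal.conj_mem inferInstance a ha b⁻¹)
          · have : (b * a)⁻¹ * (a * b) = (a⁻¹ * b⁻¹ * (a⁻¹)⁻¹) * b := by group
            rw [this]
            exact Subgroup.mul_mem _
              (Subgroup.Normal.conj_mem inferInstance _ (Subgroup.inv_mem _ hb) a⁻¹) hb
        have := (mem_LL s f r _).mp (hboth hc) w
        rw [mul_smul, inv_smul_eq_iff, mul_smul, mul_smul] at this
        exact this
      · intro a ha b hb hab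
        have h1 : b⁻¹ * a ∈ LL s f r := by
          rw [mem_LL]
          intro w
          rw [mul_smul, hab, inv_smul_smul]
        have h3 : a ∈ LL s f q1 := by
          have := Subgroup.mul_mem _ hb (hL1 h1)
          rwa [mul_inv_cancel_left] at this
        have h4 : a ∈ LL s f r := hboth ⟨ha, h3⟩
        intro w
        rw [← hab w]
        exact (mem_LL s f r a).mp h4 w
    · push Not at hB
      exact final s t f hd hf htt q1 r h61 hfin hL1
        (fun g hg => (mem_LL s f r g).mpr (hB g hg)) hr ⟨xe, hxe⟩ hz (hfix xe)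
  · push Not at hA
    exact final s t f hd hf htt q0 r h6 hfin hL0
      (fun g hg => (mem_LL s f r g).mpr (hA g hg)) hr ⟨xe, hxe⟩ hz (hfix xe)

end

end Pool.Agent.H101R.Qd
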